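import Mathlib

namespace Pool.Agent.H.MP_d8b757_co

noncomputable def u : ℕ → ℕ → ℝ
  | 0, j => (1 / 3) ^ j
  | i + 1, 0 => (1 / 3) ^ (i + 1)
  | i + 1, j + 1 => (u i (j + 1) + u (i + 1) j) / 4

lemma u0l (j : ℕ) : u 0 j = (1 / 3) ^ j := by rw [u]
lemma u0r (i : ℕ) : u i 0 = (1 / 3) ^ i := by cases i <;> rw [u]
lemma uss (i j : ℕ) : u (i + 1) (j + 1) = (u i (j + 1) + u (i + 1) j) / 4 := by rw [u]

lemma u_symm (i j : ℕ) : u i j = u j i := by
  induction i generalizing j with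
  | zero => rw [u0l, u0r]
  | succ i ih =>
    induction j with
    | zero => rw [u0l, u0r]
    | succ j ih2 => rw [uss, uss, ih, ih2, add_comm]

lemma u_pos (i j : ℕ) : 0 ≤ u i j := by
  induction i generalizing j with
  | zero => rw [u0l]; positivity
  | succ i ih =>
    induction j with
    | zero => rw [u0r]; positivity
    | succ j ih2 => rw [uss]; have := ih (j + 1); positivity

lemma u_succ (i j : ℕ) : u (i + 1) j ≤ u i j := by
  induction j generalizing i with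
  | zero =>
    rw [u0r, u0r, pow_succ]
    have : (0:ℝ) < (1 / 3) ^ i := by positivity
    linarith
  | succ j ih2 =>
    induction i with
    | zero =>
      have := ih2 0
      rw [uss, u0l, pow_succ]
      rw [u0l] at this
      linarith
    | succ i ih =>
      have := ih2 (i + 1)
      rw [uss (i + 1) j, uss i j] at *
      linarith

lemma u_anti {i i' : ℕ} (h : i ≤ i') (j : ℕ) : u i' j ≤ u i j := by
  induction h with
  | refl => exact le_rfl
  | step _ ih => exact (u_succ _ _).trans ih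

lemma u_le_one (i j : ℕ) : u i j ≤ 1 := by
  refine (u_anti (Nat.zero_le i) j).trans ?_
  rw [u0l]; exact pow_le_one₀ (by norm_num) (by norm_num)

lemma u_rec (i j : ℕ) (h : ¬ (i = 0 ∧ j = 0)) : u (i - 1) j + u i (j - 1) ≤ 4 * u i j := by
  rcases i with _ | i <;> rcases j with _ | j
  · simp at h
  · simp only [Nat.zero_sub, Nat.add_sub_cancel, u0l, pow_succ]; linarith
  · simp only [Nat.zero_sub, Nat.add_sub_cancel, u0r, pow_succ]; linarith
  · simp only [Nat.add_sub_cancel, uss]; linarith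

lemma u_bound (a i j : ℕ) :
    u i j ≤ 2 ^ a * ((i + j).choose i : ℝ) / 4 ^ (i + j) + (2 / 3) ^ a / 2 ^ (i + j) := by
  have base : ∀ j : ℕ, ((1:ℝ) / 3) ^ j ≤ 2 ^ a * 1 / 4 ^ j + (2 / 3) ^ a / 2 ^ j := by
    intro j
    rcases le_total j a with h | h
    · have h1 : ((1:ℝ) / 3) ^ j ≤ 2 ^ a * 1 / 4 ^ j := by
        rw [le_div_iff₀ (by positivity), ← mul_pow, mul_one]
        calc ((1:ℝ) / 3 * 4) ^ j ≤ 2 ^ j := pow_le_pow_left₀ (by norm_num) (by norm_num) j
          _ ≤ 2 ^ a := pow_le_pow_right₀ (by norm_num) h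
      have : (0:ℝ) ≤ (2 / 3) ^ a / 2 ^ j := by positivity
      linarith
    · have h1 : ((1:ℝ) / 3) ^ j ≤ (2 / 3) ^ a / 2 ^ j := by
        rw [le_div_iff₀ (by positivity), ← mul_pow]
        calc ((1:ℝ) / 3 * 2) ^ j = (2 / 3) ^ j := by norm_num
          _ ≤ (2 / 3) ^ a := pow_le_pow_of_le_one (by norm_num) (by norm_num) h
      have : (0:ℝ) ≤ 2 ^ a * 1 / 4 ^ j := by positivity
      linarith
  induction i generalizing j with
  | zero => simpa [u0l] using base j
  | succ i ih =>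
    induction j with
    | zero => simpa [u0r] using base (i + 1)
    | succ j ih2 =>
      have h1 := ih (j + 1)
      rw [uss]
      have e1 : i + 1 + (j + 1) = (i + j + 1) + 1 := by ring
      have e2 : i + (j + 1) = i + j + 1 := by ring
      have e3 : i + 1 + j = i + j + 1 := by ring
      rw [e2] at h1
      rw [e3] at ih2
      rw [e1, Nat.choose_succ_succ', pow_succ _ (i + j + 1), pow_succ _ (i + j + 1)]
      push_cast
      have : (2:ℝ) ^ a * ((i + j + 1).choose i + (i + j + 1).choose (i + 1)) / (4 ^ (i + j + 1) * 4) +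
          (2 / 3) ^ a / (2 ^ (i + j + 1) * 2) =
          ((2 ^ a * ((i + j + 1).choose i : ℝ) / 4 ^ (i + j + 1) + (2 / 3) ^ a / 2 ^ (i + j + 1)) +
          (2 ^ a * ((i + j + 1).choose (i + 1) : ℝ) / 4 ^ (i + j + 1) + (2 / 3) ^ a / 2 ^ (i + j + 1))) / 4 := by
        field_simp; ring
      rw [this]
      linarith

lemma cb_sq (m : ℕ) : m.centralBinom ^ 2 * (2 * m + 1) ≤ 16 ^ m := by
  induction m with
  | zero => simp
  | succ m ih =>
    have h := Nat.succ_mul_centralBinom_succ m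
    have h2 : (m + 1) ^ 2 * ((m + 1).centralBinom ^ 2 * (2 * (m + 1) + 1)) ≤ (m + 1) ^ 2 * 16 ^ (m + 1) := by
      calc (m + 1) ^ 2 * ((m + 1).centralBinom ^ 2 * (2 * (m + 1) + 1))
          = ((m + 1) * (m + 1).centralBinom) ^ 2 * (2 * m + 3) := by ring
        _ = (m.centralBinom ^ 2 * (2 * m + 1)) * (4 * (2 * m + 1) * (2 * m + 3)) := by rw [h]; ring
        _ ≤ 16 ^ m * (16 * (m + 1) ^ 2) := Nat.mul_le_mul ih (by nlinarith)
        _ = (m + 1) ^ 2 * 16 ^ (m + 1) := by ring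
    exact Nat.le_of_mul_le_mul_left h2 (by positivity)

lemma choose_sq (n i : ℕ) : (n.choose i) ^ 2 * n ≤ 4 ^ n := by
  obtain ⟨m, rfl | rfl⟩ := Nat.even_or_odd' n
  · have h1 := Nat.choose_le_centralBinom i m
    calc ((2 * m).choose i) ^ 2 * (2 * m) ≤ m.centralBinom ^ 2 * (2 * m + 1) :=
          Nat.mul_le_mul (Nat.pow_le_pow_left h1 2) (by omega)
      _ ≤ 16 ^ m := cb_sq m
      _ = 4 ^ (2 * m) := by rw [pow_mul]; norm_num
  · have h1 : (2 * m + 1).choose i ≤ 2 * m.centralBinom := by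
      cases i with
      | zero => have := Nat.centralBinom_pos m; simp; omega
      | succ i =>
        rw [Nat.choose_succ_succ']
        have := Nat.choose_le_centralBinom i m
        have := Nat.choose_le_centralBinom (i + 1) m
        omega
    calc ((2 * m + 1).choose i) ^ 2 * (2 * m + 1) ≤ (2 * m.centralBinom) ^ 2 * (2 * m + 1) :=
          Nat.mul_le_mul (Nat.pow_le_pow_left h1 2) le_rfl
      _ = 4 * (m.centralBinom ^ 2 * (2 * m + 1)) := by ring
      _ ≤ 4 * 16 ^ m := Nat.mul_le_mul_left 4 (cb_sq m)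
      _ = 4 ^ (2 * m + 1) := by rw [pow_succ, pow_mul]; norm_num [mul_comm]

lemma le_of_sq_le_sq_aux {x y : ℝ} (hy : 0 ≤ y) (h : x ^ 2 ≤ y ^ 2) : x ≤ y :=
  (abs_le_of_sq_le_sq' h hy).2

lemma u_small {ε : ℝ} (hε : 0 < ε) : ∃ T : ℕ, ∀ i j, T ≤ i + j → u i j ≤ ε / 2 ^ (i + j) := by
  obtain ⟨a, ha⟩ := exists_pow_lt_of_lt_one (half_pos hε) (show (2:ℝ) / 3 < 1 by norm_num)
  set δ : ℝ := ε / 2 / 2 ^ a with hδ
  have hδ0 : 0 < δ := by positivity
  obtain ⟨T, hT⟩ := exists_nat_ge (1 / δ ^ 2)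
  refine ⟨T, fun i j hij => (u_bound a i j).trans ?_⟩
  generalize i + j = n at hij
  have h1 : ((n.choose i : ℝ)) ^ 2 * n ≤ 4 ^ n := by exact_mod_cast choose_sq n i
  have h2 : 1 ≤ (n : ℝ) * δ ^ 2 := by
    have : (T : ℝ) ≤ n := by exact_mod_cast hij
    rw [div_le_iff₀ (by positivity)] at hT
    nlinarith [sq_nonneg δ]
  have e4 : (4:ℝ) ^ n = 2 ^ n * 2 ^ n := by rw [← mul_pow]; norm_num
  have h3 : (n.choose i : ℝ) ≤ δ * 2 ^ n := by
    apply le_of_sq_le_sq_aux (by positivity)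
    have : ((n.choose i : ℝ)) ^ 2 ≤ ((n.choose i : ℝ)) ^ 2 * (n * δ ^ 2) :=
      le_mul_of_one_le_right (by positivity) h2
    nlinarith [sq_nonneg δ]
  have h4 : 2 ^ a * (n.choose i : ℝ) / 4 ^ n ≤ ε / 2 / 2 ^ n := by
    rw [div_le_div_iff₀ (by positivity) (by positivity), e4]
    have : (2:ℝ) ^ a * δ = ε / 2 := by rw [hδ]; field_simp
    have h5 : (2:ℝ) ^ a * (n.choose i : ℝ) ≤ ε / 2 * 2 ^ n := by
      rw [← this, mul_assoc]; exact mul_le_mul_of_nonneg_left h3 (by positivity)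
    have : (0:ℝ) < 2 ^ n := by positivity
    nlinarith
  have h6 : ((2:ℝ) / 3) ^ a / 2 ^ n ≤ ε / 2 / 2 ^ n := div_le_div_of_nonneg_right ha.le (by positivity)
  have : ε / 2 ^ n = ε / 2 / 2 ^ n + ε / 2 / 2 ^ n := by ring
  linarith

def dd (t i k : ℕ) : ℕ := min (max i k) t

noncomputable def ee (t : ℕ) (ε : ℝ) (i k j l : ℕ) : ℝ :=
  ε * (if i = t ∨ j = t then 2 else 1) / 2 ^ (dd t i k + dd t j l)

noncomputable def PP (t : ℕ) (ε : ℝ) (i k j l : ℕ) : ℝ :=
  ee t ε i k j l + if i < t ∧ j < t ∧ k = 0 ∧ l = 0 then u i j else 0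

noncomputable def WW (t : ℕ) (ε : ℝ) (i k j l : ℕ) : ℝ :=
  ee t ε i k j l + if i < t ∧ j < t then (if k = 0 ∧ l = 0 then 1 else
    if k = 1 ∧ l = 0 then u (i - 1) j / 2 else if k = 0 ∧ l = 1 then u i (j - 1) / 2 else 0) else 0

variable {t : ℕ} {ε : ℝ}

lemma ee_symm (i k j l : ℕ) : ee t ε i k j l = ee t ε j l i k := by
  simp only [ee, or_comm, add_comm]

lemma PP_symm (i k j l : ℕ) : PP t ε i k j l = PP t ε j l i k := by
  rw [PP, PP, ee_symm, u_symm]
  congr 2
  apply propext; tauto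

lemma WW_symm (i k j l : ℕ) : WW t ε i k j l = WW t ε j l i k := by
  rw [WW, WW, ee_symm]
  congr 1
  rw [u_symm (i - 1), u_symm i]
  split_ifs <;> first | rfl | omega

lemma ee_pos (hε : 0 < ε) (i k j l : ℕ) : 0 ≤ ee t ε i k j l := by
  unfold ee; split_ifs <;> positivity

lemma PP_pos (hε : 0 < ε) (i k j l : ℕ) : 0 ≤ PP t ε i k j l := by
  have := ee_pos (t := t) hε i k j l
  have := u_pos i j
  unfold PP; split_ifs <;> linarith

lemma ee_le_W (i k j l : ℕ) : ee t ε i k j l ≤ WW t ε i k j l := by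
  have := u_pos (i - 1) j
  have := u_pos i (j - 1)
  unfold WW; split_ifs <;> linarith

lemma P_le_W (i k j l : ℕ) : PP t ε i k j l ≤ WW t ε i k j l := by
  by_cases h : i < t ∧ j < t ∧ k = 0 ∧ l = 0
  · have := u_le_one i j
    rw [PP, WW, if_pos h, if_pos ⟨h.1, h.2.1⟩, if_pos h.2.2]
    linarith
  · rw [PP, if_neg h, add_zero]; exact ee_le_W _ _ _ _

lemma div_le (hε : 0 < ε) {c c' : ℝ} (hc : 0 ≤ c) (h : c ≤ c') {n m : ℕ} (hn : m ≤ n) :
    ε * c / 2 ^ n ≤ ε * c' / 2 ^ m := by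
  have : (2:ℝ) ^ m ≤ 2 ^ n := pow_le_pow_right₀ (by norm_num) hn
  have : 0 ≤ c' := hc.trans h
  gcongr

lemma half (c : ℝ) (n : ℕ) : ε * c / 2 ^ n / 2 = ε * c / 2 ^ (n + 1) := by
  rw [pow_succ]; field_simp

lemma stepA (hε : 0 < ε) (hu : ∀ j, u (t - 1) j ≤ ε / 2 ^ (t - 1 + j)) {i k i' k' j l : ℕ}
    (hi : i ≤ t) (hi' : i' ≤ t) (hj : j ≤ t) (h1 : i ≤ i' + 1)
    (h2 : i = t ∨ i' = t ∨ k ≤ k' + 1) : PP t ε i' k' j l / 2 ≤ WW t ε i k j l := by
  by_cases c1 : i = t
  · refine le_trans ?_ (ee_le_W _ _ _ _)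
    by_cases h : i' < t ∧ j < t ∧ k' = 0 ∧ l = 0
    · obtain ⟨a1, a2, rfl, rfl⟩ := h
      have e : i' = t - 1 := by omega
      have := hu j
      rw [← e] at this
      have d1 : dd t i' 0 = i' := by unfold dd; omega
      have d2 : dd t j 0 = j := by unfold dd; omega
      have d3 : dd t i k = i' + 1 := by unfold dd; omega
      rw [PP, if_pos ⟨a1, a2, rfl, rfl⟩, ee, ee, if_neg (by omega), if_pos (Or.inl c1), d1, d2, d3,
        show i' + 1 + j = i' + j + 1 by ring, ← half]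
      have : ε * 2 / 2 ^ (i' + j) = ε * 1 / 2 ^ (i' + j) + ε / 2 ^ (i' + j) := by ring
      linarith
    · rw [PP, if_neg h, add_zero, ee, ee, half, if_pos (Or.inl c1)]
      apply div_le hε (by split_ifs <;> norm_num) (by split_ifs <;> norm_num)
      unfold dd; omega
  by_cases c2 : i' = t
  · refine le_trans ?_ (ee_le_W _ _ _ _)
    rw [PP, if_neg (by omega), add_zero, ee, ee, if_pos (Or.inl c2)]
    have : ε * 2 / 2 ^ (dd t i' k' + dd t j l) / 2 = ε * 1 / 2 ^ (dd t i' k' + dd t j l) := by ring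
    rw [this]
    apply div_le hε (by norm_num) (by split_ifs <;> norm_num)
    unfold dd; omega
  have he : ee t ε i' k' j l / 2 ≤ ee t ε i k j l := by
    rw [ee, ee, half]
    apply div_le hε (by split_ifs <;> norm_num) (by simp [c1, c2])
    unfold dd; omega
  by_cases h : i' < t ∧ j < t ∧ k' = 0 ∧ l = 0
  · obtain ⟨a1, a2, rfl, rfl⟩ := h
    rw [PP, if_pos ⟨a1, a2, rfl, rfl⟩, WW, if_pos ⟨by omega, a2⟩]
    have b1 := u_le_one i' j
    have b2 := u_anti (show i - 1 ≤ i' by omega) j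
    have : k = 0 ∨ k = 1 := by omega
    rcases this with rfl | rfl
    · simp only [and_self, if_true]; linarith
    · simp only [one_ne_zero, false_and, if_false, and_self, if_true]; linarith
  · rw [PP, if_neg h, add_zero]
    exact he.trans (ee_le_W _ _ _ _)

lemma robber (hε : 0 < ε) {i k j l : ℕ} (h : PP t ε i k j l < 1) :
    WW t ε i (k + 1) j l + WW t ε i k j (l + 1) ≤ 2 * PP t ε i k j l := by
  have e1 : ee t ε i (k + 1) j l ≤ ee t ε i k j l := by
    apply div_le hε (by split_ifs <;> norm_num) le_rfl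
    unfold dd; omega
  have e2 : ee t ε i k j (l + 1) ≤ ee t ε i k j l := by
    apply div_le hε (by split_ifs <;> norm_num) le_rfl
    unfold dd; omega
  by_cases c : i < t ∧ j < t ∧ k = 0 ∧ l = 0
  · obtain ⟨a1, a2, rfl, rfl⟩ := c
    rw [PP, if_pos ⟨a1, a2, rfl, rfl⟩] at h
    have := u_rec i j (by
      rintro ⟨rfl, rfl⟩
      have := ee_pos (t := t) hε 0 0 0 0
      rw [u0l] at h
      simp at h
      linarith)
    rw [PP, if_pos ⟨a1, a2, rfl, rfl⟩, WW, WW]
    simp only [zero_add, one_ne_zero, false_and, if_false, and_self, if_true, and_false,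
      zero_ne_one, a1, a2] at e1 e2 ⊢
    linarith
  · have w : ∀ k' l', (i < t → j < t → 2 ≤ k' + l') → WW t ε i k' j l' = ee t ε i k' j l' := by
      intro k' l' hh
      rw [WW]
      split_ifs <;> first | omega | simp
    rw [PP, if_neg c, w _ _ (by omega), w _ _ (by omega)]
    linarith

lemma P_zero (hε : 0 < ε) (ht : 0 < t) : 1 ≤ PP t ε 0 0 0 0 := by
  have := ee_pos (t := t) hε 0 0 0 0
  rw [PP, if_pos ⟨ht, ht, rfl, rfl⟩, u0l]
  simp only [pow_zero]; linarith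

lemma W_init (hε : 0 < ε) (ht : 2 ≤ t) (i j : ℕ) : WW t ε i t j t ≤ ε * 2 / 2 ^ (t + t) := by
  have : ee t ε i t j t ≤ ε * 2 / 2 ^ (t + t) := by
    apply div_le hε (by split_ifs <;> norm_num) (by split_ifs <;> norm_num)
    unfold dd; omega
  rw [WW]
  split_ifs <;> first | omega | linarith

end Pool.Agent.H.MP_d8b757_co
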